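import Pool.Agent.Helper77.SO.St

set_option autoImplicit false

namespace Pool.Agent.Helper79.SO.CN0

open Equiv Equiv.Perm Pool.Agent.Helper35.PM Pool.Agent.Helper77.HY Pool.Agent.Helper77.OF4
  Pool.Agent.Helper77.SO

theorem main : StCn0 := by
  intro V D _ M p hC hF h0
  have h1 : ∀ e, p (M.ι e) = p e := by
    intro e
    by_contra hne
    have h2 : ({d | p (M.ι d) ≠ p d} : Set D) = ∅ :=
      (Set.ncard_eq_zero (Set.toFinite _)).1 h0
    have h3 : e ∈ ({d | p (M.ι d) ≠ p d} : Set D) := hne
    rw [h2] at h3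
    exact h3
  have h2 : ∀ e, p (M.r e) = p e := by
    intro e
    have h3 := hF (M.ι e)
    rw [PMap.φ_apply, M.inv, h1] at h3
    exact h3
  have h3 : ∀ (n : ℕ) (e : D), p ((M.r ^ n) e) = p e := by
    intro n
    induction n with
    | zero => intro e; simp
    | succ n ih =>
      intro e
      rw [pow_succ, Perm.mul_apply, ih, h2]
  have h4 : ∀ a b, M.t a = M.t b → p a = p b := by
    intro a b hab
    obtain ⟨n, hn⟩ := (M.trans a b hab).exists_nat_pow_eq
    rw [← hn, h3]
  have h5 : ∀ v w : V, Relation.ReflTransGen (fun a b => ∃ d, M.t d = a ∧ M.t (M.ι d) = b) v w →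
      ∀ a b, M.t a = v → M.t b = w → p a = p b := by
    intro v w hvw
    induction hvw with
    | refl => intro a b ha hb; exact h4 a b (ha.trans hb.symm)
    | tail _ hs ih =>
      rename_i x y
      obtain ⟨d, hd1, hd2⟩ := hs
      intro a b ha hb
      rw [ih a d ha hd1, ← h1 d]
      exact h4 _ _ (hd2.trans hb.symm)
  intro a b
  exact h5 _ _ (hC (M.t a) (M.t b)) a b rfl rfl

end Pool.Agent.Helper79.SO.CN0
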